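import Pool.Agent.Y793.Dy.Stm

/-! DY-NEG (job 10647 of helper793). -/

set_option autoImplicit false

namespace Pool.Agent.Y891.Dy

open Finset
open Pool.Agent.Helper352.Bed
open Pool.Agent.Y793.Dy

theorem sum_le_of (c : ℕ → ℕ) (N : ℕ) : ∀ s : Finset ℕ, (∀ x ∈ s, ∃ k < N, x = c k) →
    ∑ x ∈ s, x ≤ ∑ k ∈ range N, c k := by
  induction N with
  | zero =>
    intro s hs
    have : s = ∅ := by
      rw [Finset.eq_empty_iff_forall_notMem]
      intro x hx
      obtain ⟨k, hk, -⟩ := hs x hx
      omega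
    subst this
    simp
  | succ N ih =>
    intro s hs
    rw [Finset.sum_range_succ]
    by_cases hN : c N ∈ s
    · have h1 := ih (s.erase (c N)) (by
        intro x hx
        rw [Finset.mem_erase] at hx
        obtain ⟨k, hk, hxk⟩ := hs x hx.2
        refine ⟨k, ?_, hxk⟩
        rcases Nat.lt_succ_iff_lt_or_eq.1 hk with h | h
        · exact h
        · subst h
          exact absurd hxk hx.1)
      have h2 := Finset.add_sum_erase s (fun x => x) hN
      omega
    · have h1 := ih s (by
        intro x hx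
        obtain ⟨k, hk, hxk⟩ := hs x hx
        refine ⟨k, ?_, hxk⟩
        rcases Nat.lt_succ_iff_lt_or_eq.1 hk with h | h
        · exact h
        · subst h
          rw [hxk] at hx
          exact absurd hx hN)
      omega

/-- DY-NEG -/
theorem t_NEG : S_NEG := by
  rintro β hβ hne ⟨N₀, hN⟩
  set c : ℕ → ℕ := fun k => ⌊(2 : ℝ) ^ k * β⌋₊ with hc
  have hdbl : ∀ k, 2 * c k ≤ c (k + 1) ∧ c (k + 1) ≤ 2 * c k + 1 := by
    intro k
    have h1 := floor_dbl (x := (2 : ℝ) ^ k * β) (by positivity)
    have e : 2 * ((2 : ℝ) ^ k * β) = 2 ^ (k + 1) * β := by ring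
    rw [e] at h1
    exact h1
  have hmono : Monotone c := monotone_nat_of_le_succ fun k => by
    have := hdbl k
    omega
  have hinf : ∀ r, ∃ k, r ≤ k ∧ c (k + 1) = 2 * c k + 1 := by
    intro r
    by_contra hcon
    push Not at hcon
    have h1 : ∀ k, r ≤ k → c (k + 1) = 2 * c k := fun k hk => by
      have h2 := hdbl k
      have h3 := hcon k hk
      omega
    have h2 : ∀ P, r ≤ P → 0 ≤ (2 : ℝ) ^ r * β - c r ∧ (2 : ℝ) ^ r * β - c r < 2 ^ r / 2 ^ P :=
      fun P hP => err_small hβ hP fun k hk _ => h1 k hk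
    refine hne r (c r) ?_
    by_contra hx
    have hpos : 0 < (2 : ℝ) ^ r * β - c r :=
      lt_of_le_of_ne (h2 r le_rfl).1 fun h => hx (by linarith)
    obtain ⟨P, hP⟩ := pow_unbounded_of_one_lt ((2 : ℝ) ^ r / ((2 : ℝ) ^ r * β - c r))
      (one_lt_two : (1 : ℝ) < 2)
    have h3 := (h2 (max P r) (le_max_right _ _)).2
    rw [lt_div_iff₀ (by positivity)] at h3
    rw [div_lt_iff₀ hpos] at hP
    have h4 : (2 : ℝ) ^ P ≤ 2 ^ (max P r) := pow_le_pow_right₀ one_le_two (le_max_left _ _)
    nlinarith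
  have hF : ∀ j : ℕ, ∃ N, ∀ n, N ≤ n → ∑ k ∈ range n, c k + j ≤ c n := by
    intro j
    induction j with
    | zero =>
      refine ⟨0, fun n _ => ?_⟩
      induction n with
      | zero => simp
      | succ n ih =>
        rw [Finset.sum_range_succ]
        have := hdbl n
        have := ih (Nat.zero_le _)
        omega
    | succ j ih =>
      obtain ⟨N, hNj⟩ := ih
      obtain ⟨k, hk, hck⟩ := hinf N
      refine ⟨k + 1, fun n hn => ?_⟩
      induction n, hn using Nat.le_induction with
      | base =>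
        rw [Finset.sum_range_succ]
        have := hNj k hk
        omega
      | succ n hn ih =>
        rw [Finset.sum_range_succ]
        have := hdbl n
        omega
  obtain ⟨N1, hN1⟩ := hF 2
  obtain ⟨M, hM⟩ := pow_unbounded_of_one_lt (((N₀ : ℝ) + 1) / β) (one_lt_two : (1 : ℝ) < 2)
  have hbig : N₀ + 1 ≤ c (max N1 M) := by
    refine le_trans ?_ (hmono (le_max_right N1 M))
    refine Nat.le_floor ?_
    rw [div_lt_iff₀ hβ] at hM
    push_cast
    linarith
  obtain ⟨s, hs, hsum⟩ := hN (c (max N1 M) - 1) (by omega)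
  have h1 := hN1 (max N1 M) (le_max_left _ _)
  have h2 := sum_le_of c (max N1 M) s (by
    intro x hx
    obtain ⟨hx0, k, hk⟩ := hs x hx
    refine ⟨k, ?_, hk⟩
    by_contra hcon
    have h3 := hmono (not_lt.1 hcon)
    have h4 : x ≤ ∑ x ∈ s, x := Finset.single_le_sum (f := fun x => x) (fun _ _ => Nat.zero_le _) hx
    have h5 : x = c k := hk
    omega)
  omega

end Pool.Agent.Y891.Dy
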